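import Pool.Agent.R286.HT.Core
import Pool.Agent.R286.HT.Ops
import Pool.Agent.R286.HT.Spec
import Pool.Agent.R286.HT.Coef
import Pool.Agent.R286.HT.Main

/-!
# MP_301177_an: analyticity of Hankel tori with geometrically decaying singular values

If `s_{r+1} ≤ δ s_r` for all `r` with `δ < 1`, every element of the Hankel torus `T((s_r))` extends
holomorphically to a disc `|z| < 1 + ρ` with `ρ > 0` depending on `δ` only, with a bound that is
uniform over the torus.
-/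

set_option autoImplicit false

open ComplexConjugate

namespace Pool.Agent.Results.MP_301177_an.HankelTori

/-- Fourier coefficients of the Hankel operator `H_u h = Π(u \bar h)`:
`(H_u h)^(n) = ∑_m u_{n+m} conj (h_m)` -/
noncomputable def hankel (u h : ℕ → ℂ) : ℕ → ℂ := fun n => ∑' m, u (n + m) * conj (h m)

/-- Fourier coefficients of `S h`, `S` multiplication by `e^{ix}` -/
def shift (h : ℕ → ℂ) : ℕ → ℂ
  | 0 => 0
  | n + 1 => h n

/-- square summable sequences: the Fourier coefficients of the functions of `L²_+` -/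
def L2 (h : ℕ → ℂ) : Prop := Summable fun n => ‖h n‖ ^ 2

/-- The positive eigenvalues of `T²` on `L²_+` are exactly the numbers `ρ_j²`, all simple. -/
def SimpleSpectrum (T : (ℕ → ℂ) → ℕ → ℂ) (ρ : ℕ → ℝ) : Prop :=
  (∀ t : ℝ, 0 < t → ((∃ h : ℕ → ℂ, L2 h ∧ h ≠ 0 ∧ T (T h) = fun n => (t : ℂ) * h n) ↔
    ∃ j, t = ρ j ^ 2)) ∧
  ∀ j, ∀ h g : ℕ → ℂ, L2 h → L2 g → T (T h) = (fun n => ((ρ j ^ 2 : ℝ) : ℂ) * h n) →
    T (T g) = (fun n => ((ρ j ^ 2 : ℝ) : ℂ) * g n) → g ≠ 0 → ∃ c : ℂ, h = fun n => c * g n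

/-- The torus `T((s_r))`, indices starting at `0`: `u` lies in `H^{1/2}_+`, the positive eigenvalues
of `H_u²` are the numbers `s_0², s_2², s_4², …` and those of `K_u² = (H_u S)²` are the numbers
`s_1², s_3², s_5², …`, all simple. -/
def Torus (s : ℕ → ℝ) : Set (ℕ → ℂ) :=
  {u | (Summable fun n : ℕ => (1 + (n : ℝ)) * ‖u n‖ ^ 2) ∧
    SimpleSpectrum (hankel u) (fun j => s (2 * j)) ∧
    SimpleSpectrum (fun h => hankel u (shift h)) (fun k => s (2 * k + 1))}

theorem hankel_eq : hankel = R286.HT.hankel := rfl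

theorem shift_eq : shift = R286.HT.shift := by
  funext h n
  cases n <;> rfl

theorem torus_eq (s : ℕ → ℝ) : Torus s = R286.HT.Torus s := by
  unfold Torus R286.HT.Torus
  rw [shift_eq]
  rfl

/-- For every `δ ∈ (0,1)` there is `ρ > 0` such that for every positive sequence with
`s_{r+1} ≤ δ s_r` there is `C` such that every element of the torus extends holomorphically to
`|z| < 1 + ρ` and is bounded there by `C`. -/
theorem result : ∀ δ : ℝ, 0 < δ → δ < 1 → ∃ ρ : ℝ, 0 < ρ ∧ ∀ s : ℕ → ℝ, (∀ r, 0 < s r) →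
    (∀ r, s (r + 1) ≤ δ * s r) → ∃ C : ℝ, ∀ u ∈ Torus s, ∃ F : ℂ → ℂ,
      DifferentiableOn ℂ F (Metric.ball 0 (1 + ρ)) ∧
        (∀ z : ℂ, ‖z‖ < 1 → HasSum (fun n => u n * z ^ n) (F z)) ∧
        ∀ z ∈ Metric.ball (0 : ℂ) (1 + ρ), ‖F z‖ ≤ C := by
  intro δ h0 h1
  obtain ⟨ρ, hρ, H⟩ := R286.HT.main R286.HT.ops R286.HT.spec (R286.HT.coef R286.HT.core) δ h0 h1
  refine ⟨ρ, hρ, fun s hs hss => ?_⟩
  obtain ⟨C, hC⟩ := H s hs hss
  refine ⟨C, fun u hu => ?_⟩
  rw [torus_eq] at hu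
  exact hC u hu

end Pool.Agent.Results.MP_301177_an.HankelTori
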